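import Pool.Agent.Q158.IntQB

/-! Two q-series identities from the enumeration of interval orders hold at all roots of unity
where they make sense. -/

namespace Pool.Agent.Results.MP_12a8d1_co.RootsOfUnity

open Q158.IntQ

/-- Q1: at all pairs of `k`-th roots of unity the right side of (1) converges, the left side
converges if and only if `p₀ q₀^j = 1` for some `j`, and in this case the two sides are equal.
Q2: at every root of unity `q₀` both sides of (2) converge in `ℂ[p][[q - q₀]]` to the same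
power series. -/
theorem result :
    (∀ (k : ℕ) (p₀ q₀ : ℂ), 1 ≤ k → p₀ ^ k = 1 → q₀ ^ k = 1 →
      Converges₂ (rhs₁ p₀ q₀) ∧
      (Converges₂ (lhs₁ p₀ q₀) ↔ ∃ j : ℕ, p₀ * q₀ ^ j = 1) ∧
      (Converges₂ (lhs₁ p₀ q₀) → value₂ (lhs₁ p₀ q₀) = value₂ (rhs₁ p₀ q₀))) ∧
    (∀ (k : ℕ) (q₀ : ℂ), 1 ≤ k → q₀ ^ k = 1 →
      Converges₁ (lhs₂ q₀) ∧ Converges₁ (rhs₂ q₀) ∧
      value₁ (lhs₂ q₀) = value₁ (rhs₂ q₀)) :=
  ⟨fun _ _ _ hk hp hq => first hk hp hq, fun _ _ hk hq => second hk hq⟩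

end Pool.Agent.Results.MP_12a8d1_co.RootsOfUnity
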